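import Mathlib

/-!
# Dehomogenization
-/

set_option autoImplicit false

namespace Pool.Agent.Lib.MP_6a3dac_ag.DNF

open MvPolynomial

section

variable {O : Type} [CommRing O] {n : ℕ} (i : Fin (n + 1))

/-- Dehomogenization with respect to the variable `X i`. -/
noncomputable def dehom : MvPolynomial (Fin (n + 1)) O →ₐ[O]
    MvPolynomial {l : Fin (n + 1) // l ≠ i} O :=
  aeval fun l => if h : l = i then 1 else X ⟨l, h⟩

theorem dehom_X_self : dehom i (X i : MvPolynomial (Fin (n + 1)) O) = 1 := by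
  rw [dehom, aeval_X, dif_pos rfl]

theorem dehom_X (l : {l : Fin (n + 1) // l ≠ i}) :
    dehom i (X l.1 : MvPolynomial (Fin (n + 1)) O) = X l := by
  rw [dehom, aeval_X, dif_neg l.2]

theorem dehom_C (a : O) : dehom i (C a) = C a := by
  rw [dehom, aeval_C]
  rfl

theorem pderiv_dehom (l : {l : Fin (n + 1) // l ≠ i}) (q : MvPolynomial (Fin (n + 1)) O) :
    pderiv l (dehom i q) = dehom i (pderiv l.1 q) := by
  classical
  induction q using MvPolynomial.induction_on with
  | C a => rw [dehom_C, pderiv_C, pderiv_C, map_zero]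
  | add a b ha hb => rw [map_add, map_add, map_add, map_add, ha, hb]
  | mul_X a k ha =>
    have h1 : pderiv l (dehom i (X k : MvPolynomial (Fin (n + 1)) O)) =
        dehom i (pderiv l.1 (X k)) := by
      by_cases hk : k = i
      · subst hk
        rw [dehom_X_self, pderiv_one, pderiv_X_of_ne, map_zero]
        exact fun h => l.2 h.symm
      · obtain ⟨k', hk'⟩ : ∃ k' : {l : Fin (n + 1) // l ≠ i}, k = k'.1 := ⟨⟨k, hk⟩, rfl⟩
        rw [hk', dehom_X, pderiv_X, pderiv_X]
        by_cases hkl : l = k'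
        · subst hkl
          simp
        · rw [Pi.single_eq_of_ne (fun h => hkl h.symm), Pi.single_eq_of_ne, map_zero]
          intro h
          exact hkl (Subtype.ext h.symm)
    rw [map_mul, Derivation.leibniz, Derivation.leibniz, h1, ha]
    simp only [smul_eq_mul, map_add, map_mul]

theorem exists_homog (g : MvPolynomial {l : Fin (n + 1) // l ≠ i} O) :
    ∃ (N : ℕ) (G : MvPolynomial (Fin (n + 1)) O), G.IsHomogeneous N ∧ dehom i G = g := by
  induction g using MvPolynomial.induction_on with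
  | C a => exact ⟨0, C a, isHomogeneous_C _ _, dehom_C i a⟩
  | add a b ha hb =>
    obtain ⟨N, G, hG, rfl⟩ := ha
    obtain ⟨N', G', hG', rfl⟩ := hb
    refine ⟨N + N', G * X i ^ N' + X i ^ N * G', ?_, ?_⟩
    · refine IsHomogeneous.add (hG.mul ?_) (IsHomogeneous.mul ?_ hG')
      · simpa using (isHomogeneous_X O i).pow N'
      · simpa using (isHomogeneous_X O i).pow N
    · simp [dehom_X_self]
  | mul_X a k ha =>
    obtain ⟨N, G, hG, rfl⟩ := ha
    refine ⟨N + 1, G * X k.1, hG.mul (isHomogeneous_X O k.1), ?_⟩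
    rw [map_mul, dehom_X]

/-- Euler's identity. -/
theorem euler_dehom {f : MvPolynomial (Fin (n + 1)) O} {d : ℕ} (hf : f.IsHomogeneous d) :
    dehom i (pderiv i f) = (d : MvPolynomial {l : Fin (n + 1) // l ≠ i} O) * dehom i f -
      ∑ l : {l : Fin (n + 1) // l ≠ i}, X l * pderiv l (dehom i f) := by
  classical
  have h1 := congrArg (dehom i) hf.sum_X_mul_pderiv
  rw [map_sum, map_nsmul, nsmul_eq_mul] at h1
  rw [← h1, eq_sub_iff_add_eq]
  have h2 : ∑ l, dehom i (X l * pderiv l f) = dehom i (X i * pderiv i f) +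
      ∑ l : {l : Fin (n + 1) // l ≠ i}, dehom i (X l.1 * pderiv l.1 f) := by
    rw [← Finset.add_sum_erase _ _ (Finset.mem_univ i)]
    congr 1
    rw [← Finset.sum_subtype (Finset.univ.erase i) (p := fun l => l ≠ i) (by simp)
      (fun l => dehom i (X l * pderiv l f))]
  rw [h2, map_mul, dehom_X_self, one_mul]
  congr 1
  refine Finset.sum_congr rfl fun l _ => ?_
  rw [map_mul, dehom_X, pderiv_dehom]

/-- The dehomogenization of the Jacobian ideal. -/
theorem jac_dehom {f : MvPolynomial (Fin (n + 1)) O} {d : ℕ} (hf : f.IsHomogeneous d) {m : O}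
    {K : ℕ} (h : C m * X i ^ K ∈ Ideal.span (insert f (Set.range fun l => pderiv l f))) :
    ∃ (c₀ : MvPolynomial {l : Fin (n + 1) // l ≠ i} O)
      (c : {l : Fin (n + 1) // l ≠ i} → MvPolynomial {l : Fin (n + 1) // l ≠ i} O),
      C m = c₀ * dehom i f + ∑ l, c l * pderiv l (dehom i f) := by
  classical
  obtain ⟨a, b, hb, hab⟩ := Ideal.mem_span_insert.mp h
  obtain ⟨c, hc⟩ := (Ideal.mem_span_range_iff_exists_fun).mp hb
  have h1 := congrArg (dehom i) hab
  rw [map_mul, map_pow, dehom_X_self, one_pow, mul_one, dehom_C, map_add, map_mul, ← hc,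
    map_sum, ← Finset.add_sum_erase _ _ (Finset.mem_univ i), map_mul, euler_dehom i hf] at h1
  have h2 : ∑ l ∈ Finset.univ.erase i, dehom i (c l * pderiv l f) =
      ∑ l : {l : Fin (n + 1) // l ≠ i}, dehom i (c l.1) * pderiv l (dehom i f) := by
    rw [Finset.sum_subtype (Finset.univ.erase i) (p := fun l => l ≠ i) (by simp)]
    refine Finset.sum_congr rfl fun l _ => ?_
    rw [map_mul, pderiv_dehom]
  rw [h2] at h1
  refine ⟨dehom i a + dehom i (c i) * d, fun l => dehom i (c l.1) - dehom i (c i) * X l, ?_⟩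
  rw [h1]
  simp only [sub_mul, Finset.sum_sub_distrib, mul_assoc, ← Finset.mul_sum]
  ring

end

end Pool.Agent.Lib.MP_6a3dac_ag.DNF
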