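import Pool.Agent.Lib.MP_6a3dac_ag.Dens.Defs
import Pool.Agent.Lib.MP_6a3dac_ag.QWPresSch

/-!
# Hypersurfaces over number fields
-/

set_option autoImplicit false

namespace Pool.Agent.Lib.MP_6a3dac_ag.DNF

open MvPolynomial CategoryTheory Limits AlgebraicGeometry NumberField

/-- The elements with the coordinates `u (i, 1), ..., u (i, s)` in a basis `b`. -/
noncomputable def coeffs {ι B : Type} [CommRing B] {s : ℕ} (b : Module.Basis (Fin s) ℤ B)
    (u : ι × Fin s → ℤ) (i : ι) : B :=
  ∑ j, u (i, j) • b j

theorem isHomogeneous_form {n d : ℕ} {R : Type} [CommRing R] (a : Mono n d → R) :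
    (form a).IsHomogeneous d := by
  refine IsHomogeneous.sum _ _ _ fun μ _ => ?_
  have h1 : (∏ i, (X i : MvPolynomial (Fin (n + 1)) R) ^ (μ.1 i : ℕ)).IsHomogeneous
      (∑ i, (μ.1 i : ℕ)) := by
    refine IsHomogeneous.prod _ _ _ fun i _ => ?_
    simpa using (isHomogeneous_X R i).pow (μ.1 i : ℕ)
  rw [μ.2] at h1
  simpa using (isHomogeneous_C (Fin (n + 1)) (a μ)).mul h1

/-- The homogeneous ideal of `R[x_0, ..., x_n]` generated by the form with the coefficients `a`. -/
noncomputable def formIdeal {n d : ℕ} {R : Type} [CommRing R] (a : Mono n d → R) :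
    HomIdeal R (n + 1) where
  ideal := Ideal.span {form a}
  homog := by
    intro f hf i
    let _ := MvPolynomial.gradedAlgebra (σ := Fin (n + 1)) (R := R)
    have h1 : (Ideal.span {form a}).IsHomogeneous (homogeneousSubmodule (Fin (n + 1)) R) := by
      apply Ideal.homogeneous_span
      rintro x rfl
      exact ⟨d, isHomogeneous_form a⟩
    have h2 := h1 i hf
    rwa [show DirectSum.decompose (homogeneousSubmodule (Fin (n + 1)) R) f i =
      MvPolynomial.decomposition.decompose' f i from rfl,
      MvPolynomial.decomposition.decompose'_apply] at h2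

/-- The morphism `π` to the spectrum of the number field `E` is the generic fibre of a regular
proper flat scheme over the ring of integers of `E`. -/
def HasRegularModel (E : Type) [Field E] {X : Scheme.{0}} (π : X ⟶ Spec (CommRingCat.of E)) :
    Prop :=
  ∃ (Y : Scheme.{0}) (g : Y ⟶ Spec (CommRingCat.of (𝓞 E))),
    IsProper g ∧ Flat g ∧ (∀ y : Y, IsRegularLocalRing (Y.presheaf.stalk y)) ∧
    ∃ e : pullback g (Spec.map (CommRingCat.ofHom (algebraMap (𝓞 E) E))) ≅ X,
      e.hom ≫ π = pullback.snd g (Spec.map (CommRingCat.ofHom (algebraMap (𝓞 E) E)))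

end Pool.Agent.Lib.MP_6a3dac_ag.DNF
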