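import Pool.Agent.Lib.MP_6a3dac_ag.DNF.ChartD

/-!
# The local theorem for hypersurfaces with nondegenerate double points in the fibres
-/

set_option autoImplicit false
set_option linter.unusedSectionVars false

namespace Pool.Agent.Lib.MP_6a3dac_ag.DNF

open MvPolynomial Matrix IsLocalRing

section

variable {O : Type} [CommRing O] {σ : Type} [Fintype σ] [DecidableEq σ]

/-- The singular points of the fibre over the closed point are nondegenerate double points. -/
def NondegAt (ϖ : O) (F : MvPolynomial σ O) : Prop :=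
  ∀ Q : Ideal (MvPolynomial σ O), Q.IsPrime → C ϖ ∈ Q → F ∈ Q →
    (∀ l, pderiv l F ∈ Q) → (Matrix.of fun i j => pderiv i (pderiv j F)).det ∉ Q

variable [IsDomain O] [IsDiscreteValuationRing O] {F : MvPolynomial σ O} {D : Type} [CommRing D] [IsDomain D] [IsLocalRing D]
  (φ : MvPolynomial σ O →+* D)

theorem inJ_mem {R : Subring D} {a : D} (ha : a ∈ R) {Z : Finset D} (hZ : ∀ z ∈ Z, z ∈ R) {j : ℕ}
    {x : D} (h : InJ R a Z j x) : x ∈ R := by
  obtain ⟨c₀, hc₀, c, hc, rfl⟩ := h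
  exact R.add_mem (R.mul_mem hc₀ (R.pow_mem ha _))
    (R.sum_mem fun z hz => R.mul_mem (hc z hz) (hZ z hz))

/-- **The local theorem.** -/
theorem isRegularLocalRing_local {ϖ : O} (hϖ : Irreducible ϖ)
    (hφF : φ F = 0) (hker : ∀ g, φ g = 0 → ∃ m : O, m ≠ 0 ∧ ∃ q, C m * g = F * q)
    (hchar : ∀ m : O, m ≠ 0 → φ (C m) ≠ 0)
    {r : ℕ} (hsing : r = 0 ∨ (IsUnit (2 : O) ∧ NondegAt ϖ F))
    {c₀ : MvPolynomial σ O} {c : σ → MvPolynomial σ O}
    (hr : C ϖ ^ r = c₀ * F + ∑ j, c j * pderiv j F)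
    {Z : Finset D} (hZ : ∀ z, z ∈ Z ↔ ∃ l, φ (pderiv l F) = z) (b : ℕ → D)
    (hb : ∀ j, 1 ≤ j → j ≤ r → b j ≠ 0 ∧ InJ (locIn φ) (φ (C ϖ)) Z j (b j) ∧ b j ∣ φ (C ϖ) ^ j ∧
      ∀ z ∈ Z, b j ∣ z)
    (hgen : ∀ R' : Subring D, Dom R' → locIn φ ≤ R' →
      (∀ j, 1 ≤ j → j ≤ r → ∀ x, InJ (locIn φ) (φ (C ϖ)) Z j x → ∀ w, b j * w = x → w ∈ R') →
        R' = ⊤) :
    IsRegularLocalRing D := by
  have hp0 : φ (C ϖ) ≠ 0 := hchar ϖ hϖ.ne_zero
  have hpR : φ (C ϖ) ∈ locIn φ := map_mem_locIn φ _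
  have hZR : ∀ z ∈ Z, z ∈ locIn φ := by
    intro z hz
    obtain ⟨l, rfl⟩ := (hZ z).mp hz
    exact map_mem_locIn φ _
  have hQp : (Ideal.comap φ (maximalIdeal D)).IsPrime := Ideal.IsPrime.comap φ
  have hun : ∀ x, x ∉ Ideal.comap φ (maximalIdeal D) ↔ IsUnit (φ x) := by
    intro x
    rw [Ideal.mem_comap, IsLocalRing.mem_maximalIdeal, mem_nonunits_iff, not_not]
  have hFQ : F ∈ Ideal.comap φ (maximalIdeal D) := by
    rw [Ideal.mem_comap, hφF]; exact Ideal.zero_mem _
  by_cases hA : ∃ l, IsUnit (φ (pderiv l F))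
  · -- smooth points
    obtain ⟨l, hl⟩ := hA
    have htop : locIn φ = ⊤ := by
      refine hgen (locIn φ) (dom_locIn φ) le_rfl ?_
      intro j h1 h2 x hx w hw
      obtain ⟨-, hbj, -, hbz⟩ := hb j h1 h2
      have h3 : b j ∈ locIn φ := inJ_mem hpR hZR hbj
      have h4 : IsUnit (b j) := isUnit_of_dvd_unit (hbz _ ((hZ _).mpr ⟨l, rfl⟩)) hl
      obtain ⟨y, hy⟩ := h4.exists_right_inv
      have h5 : y ∈ locIn φ := dom_locIn φ _ h3 _ hy
      have h6 : w = y * x := by
        rw [← hw, ← mul_assoc, mul_comm y, hy, one_mul]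
      rw [h6]
      exact (locIn φ).mul_mem h5 (inJ_mem hpR hZR hx)
    refine isRegularLocalRing_of_chart φ (fun _ : Fin 1 => F) (fun _ => hφF) ?_ ?_ ?_
    · intro s hs d hd i
      rw [Fin.sum_univ_one] at hd
      have h1 := derivation_mem _ (pderiv l) ((hun s).mpr hs) hd
      rw [Derivation.leibniz, smul_eq_mul, smul_eq_mul] at h1
      have h2 := (Submodule.add_mem_iff_left _ (Ideal.mul_mem_right _ _ hFQ)).mp h1
      have h3 := (hQp.mem_or_mem h2).resolve_right ((hun _).mpr hl)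
      have h4 : i = 0 := Subsingleton.elim _ _
      rw [h4]
      exact h3
    · intro z
      have h1 : z ∈ locIn φ := by rw [htop]; exact Subring.mem_top z
      obtain ⟨a, s, h2, h3⟩ := h1
      exact ⟨a, s, h2, h3⟩
    · intro g hg
      obtain ⟨m, hm, q, hq⟩ := hker g hg
      refine ⟨C m, hchar m hm, ?_⟩
      rw [hq]
      exact Ideal.mul_mem_right _ _ (Ideal.subset_span ⟨0, rfl⟩)
  · -- singular points
    push Not at hA
    have hy : ∀ l, φ (pderiv l F) ∈ maximalIdeal D := fun l =>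
      (IsLocalRing.mem_maximalIdeal _).mpr (hA l)
    have h1 : φ (C ϖ) ^ r ∈ maximalIdeal D := by
      have h2 := congrArg φ hr
      rw [map_pow, map_add, map_mul, hφF, mul_zero, zero_add, map_sum] at h2
      rw [h2]
      refine Ideal.sum_mem _ fun j _ => ?_
      rw [map_mul]
      exact Ideal.mul_mem_left _ _ (hy j)
    have hr0 : r ≠ 0 := by
      rintro rfl
      rw [pow_zero] at h1
      exact (maximalIdeal.isMaximal D).ne_top ((Ideal.eq_top_iff_one _).mpr h1)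
    have hpm : φ (C ϖ) ∈ maximalIdeal D :=
      (maximalIdeal.isMaximal D).isPrime.mem_of_pow_mem r h1
    obtain ⟨hp2, hnd⟩ := hsing.resolve_left hr0
    have hdet := hnd _ hQp (by rw [Ideal.mem_comap]; exact hpm) hFQ hy
    have hm' : (1 : MvPolynomial σ O) ∉ Ideal.comap φ (maximalIdeal D) :=
      (hun _).mpr (by rw [map_one]; exact isUnit_one)
    obtain ⟨e, he1, he2, s, U, hs, hU, β, hF, hβ⟩ := exists_normal_form hϖ
      (Ideal.comap φ (maximalIdeal D)) (by rw [Ideal.mem_comap]; exact hpm) hFQ hy hdet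
      hm' (by rw [one_mul]; exact hr)
    rcases chart_cases hpR hp0 b hb hgen with ⟨w, hw, hg⟩ | ⟨k, hk, u, huZ, v, t, w, hv, ht, hw, hg⟩
    · exfalso
      have h2 := congrArg φ hF
      rw [map_mul, hφF, mul_zero, map_add, map_mul, map_pow, map_sum] at h2
      have h3 : ∑ i, φ (∑ j, β i j * (pderiv i F * pderiv j F)) =
          φ (C ϖ) ^ e * (φ (C ϖ) ^ (2 * r - e) * ∑ i, ∑ j, φ (β i j) *
            (w (φ (pderiv i F)) * w (φ (pderiv j F)))) := by
        rw [← mul_assoc, ← pow_add, Finset.mul_sum]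
        refine Finset.sum_congr rfl fun i _ => ?_
        rw [map_sum, Finset.mul_sum]
        refine Finset.sum_congr rfl fun j _ => ?_
        have h4 := hw _ ((hZ _).mpr ⟨i, rfl⟩)
        have h5 := hw _ ((hZ _).mpr ⟨j, rfl⟩)
        have h6 : e + (2 * r - e) = r + r := by omega
        rw [map_mul, map_mul, h6, pow_add]
        conv_lhs => rw [← h4, ← h5]
        ring
      rw [h3] at h2
      have h4 : φ (C ϖ) ^ e * (φ U + φ (C ϖ) ^ (2 * r - e) * ∑ i, ∑ j, φ (β i j) *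
            (w (φ (pderiv i F)) * w (φ (pderiv j F)))) = 0 := by
        rw [mul_add, mul_comm _ (φ U)]
        exact h2.symm
      have h5 := (mul_eq_zero.mp h4).resolve_left (pow_ne_zero _ hp0)
      have h6 : φ U ∈ maximalIdeal D := by
        rw [eq_neg_of_add_eq_zero_left h5]
        refine Ideal.neg_mem_iff _ |>.mpr (Ideal.mul_mem_right _ _
          (Ideal.pow_mem_of_mem _ hpm _ (by omega)))
      exact hU h6
    · obtain ⟨l₀, rfl⟩ := (hZ u).mp huZ
      have hv0 : v ≠ 0 := by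
        rintro rfl
        rw [zero_mul] at ht
        exact hp0 ht.symm
      have hy0 : φ (pderiv l₀ F) ≠ 0 := by
        rw [← hv]
        exact mul_ne_zero (pow_ne_zero _ hp0) hv0
      refine isRegularLocalRing_of_double φ hϖ hp2 he1 hφF hker hchar hpm hy ((hun _).mp hs)
        ((hun _).mp hU) ((hun _).mp hdet) ((hun _).mp hβ) hF hv ht
        (w := fun l => w (φ (pderiv l F))) (fun l => hw _ ((hZ _).mpr ⟨l, rfl⟩)) hy0 ?_
      intro R' hR' h1 h2 h3 h4
      refine hg R' hR' (locIn_le hR' h1) h2 h3 ?_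
      intro z hz
      obtain ⟨l, rfl⟩ := (hZ z).mp hz
      exact h4 l

end

end Pool.Agent.Lib.MP_6a3dac_ag.DNF
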