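import Pool.Agent.Lib.MP_6a3dac_ag.Dens.Pair
import Pool.Agent.Lib.MP_6a3dac_ag.Mg.G065
import Pool.Agent.Lib.MP_6a3dac_ag.Mg.G067
import Pool.Agent.Lib.MP_6a3dac_ag.DNF.Hyper

/-!
# A positive proportion of the forms over a number field is good
-/

set_option autoImplicit false
set_option linter.unusedSectionVars false

namespace Pool.Agent.Lib.MP_6a3dac_ag.DNF

open MvPolynomial NumberField

/-- The forms whose bad fibres have only nondegenerate double points, in terms of the pairs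
`(g i, G i)`. -/
def GoodNF {n d : ℕ} (g G : Fin (n + 1) → MvPolynomial (Mono n d) ℤ) {A : Type} [CommRing A]
    (a : Mono n d → A) : Prop :=
  ∃ (m : A) (N : ℕ), m ≠ 0 ∧
    (∀ i, C m * X i ^ N ∈ Ideal.span (insert (form a) (Set.range fun l => pderiv l (form a)))) ∧
    ∀ P : Ideal A, P.IsPrime → m ∈ P → (2 : A) ∉ P ∧ ∀ i, ¬ (aeval a (g i) ∈ P ∧ aeval a (G i) ∈ P)

theorem card_box (ι : Type) [Fintype ι] [DecidableEq ι] (H : ℕ) :
    ((box ι H).card : ℝ) = (2 * H + 1) ^ Fintype.card ι := by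
  rw [box, Fintype.card_piFinset, Finset.prod_const, Int.card_Icc, Finset.card_univ]
  have h1 : ((H : ℤ) + 1 - -(H : ℤ)).toNat = 2 * H + 1 := by omega
  rw [h1]
  push_cast
  rfl

theorem mem_box {ι : Type} [Fintype ι] [DecidableEq ι] {H : ℕ} {a : ι → ℤ} :
    a ∈ box ι H ↔ ∀ i, |a i| ≤ H := by
  rw [box, Fintype.mem_piFinset]
  simp only [Finset.mem_Icc, abs_le]

section

variable (E : Type) [Field E] [NumberField E]

theorem not_isUnit_two : ¬ IsUnit (2 : 𝓞 E) := by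
  intro h
  have h1 : IsUnit (Algebra.norm ℤ (2 : 𝓞 E)) := h.map (Algebra.norm ℤ)
  have h2 : Algebra.norm ℤ (2 : 𝓞 E) = 2 ^ Module.finrank ℤ (𝓞 E) := by
    have := Algebra.norm_algebraMap (S := 𝓞 E) (2 : ℤ)
    rwa [map_ofNat] at this
  rw [h2, isUnit_pow_iff (Module.finrank_pos (R := ℤ) (M := 𝓞 E)).ne', Int.isUnit_iff] at h1
  omega

theorem exists_prime_mem {P : Ideal (𝓞 E)} (hP : P.IsPrime) {m : 𝓞 E} (hm : m ≠ 0)
    (hmP : m ∈ P) : ∃ p : ℕ, p.Prime ∧ (p : 𝓞 E) ∈ P := by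
  have hPb : P ≠ ⊥ := by
    rintro rfl
    exact hm hmP
  have h1 : (P.comap (algebraMap ℤ (𝓞 E))) ≠ ⊥ := Ideal.comap_ne_bot_of_integral_mem hm hmP
    (Algebra.IsIntegral.isIntegral m)
  have h2 : (P.comap (algebraMap ℤ (𝓞 E))).IsPrime := Ideal.IsPrime.comap _
  obtain ⟨g, hg⟩ := (IsPrincipalIdealRing.principal (P.comap (algebraMap ℤ (𝓞 E)))).principal
  have hg' : P.comap (algebraMap ℤ (𝓞 E)) = Ideal.span {g} := hg
  have hg0 : g ≠ 0 := by
    rintro rfl
    apply h1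
    rw [hg']
    simp
  have hp : Prime g := by
    rw [← Ideal.span_singleton_prime hg0, ← hg']
    exact h2
  refine ⟨g.natAbs, Int.prime_iff_natAbs_prime.mp hp, ?_⟩
  have h3 : ((g.natAbs : ℕ) : ℤ) ∈ P.comap (algebraMap ℤ (𝓞 E)) := by
    rw [hg', Ideal.mem_span_singleton]
    exact Int.dvd_natAbs_self
  rw [Ideal.mem_comap] at h3
  simpa using h3

open Classical in
theorem exists_many_good_nf {s : ℕ} (b : Module.Basis (Fin s) ℤ (𝓞 E)) {n d : ℕ} (hd : 3 ≤ d)
    {g G : Fin (n + 1) → MvPolynomial (Mono n d) ℤ} (hg : ∀ i, Irreducible (g i))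
    (hgG : ∀ i, ¬ g i ∣ G i) : ∃ c : ℝ, 0 < c ∧ ∀ᶠ H : ℕ in Filter.atTop,
    c * (box (Mono n d × Fin s) H).card ≤
      ((box (Mono n d × Fin s) H).filter fun u => GoodNF g G (coeffs b u)).card := by
  choose Cs Ms hCs using fun i => dens_sieve_nf (g i) (G i) (hg i) (hgG i) E b
  obtain ⟨M, hM⟩ : ∃ M : ℕ, M = max (2 + ∑ i, Ms i) ⌈4 * ∑ i, |Cs i|⌉₊ := ⟨_, rfl⟩
  have hM2 : 2 + ∑ i, Ms i ≤ M := hM ▸ le_max_left _ _
  have hMs : ∀ i, Ms i ≤ M := fun i =>
    (Finset.single_le_sum (fun _ _ => Nat.zero_le _) (Finset.mem_univ i)).trans (by omega)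
  have hMC : 4 * ∑ i, |Cs i| ≤ M := by
    refine (Nat.le_ceil _).trans ?_
    exact_mod_cast hM ▸ le_max_right _ _
  have hM0 : (0 : ℝ) < M := by exact_mod_cast (by omega : 0 < M)
  obtain ⟨q, r, hq1, hq2, hsm⟩ := dens_exists_smooth_class_alg (n := n) hd M (by omega)
  choose Cs' hCs' using fun i => hCs i M q (hMs i) hq1 (fun p hp hpq => (hq2 p hp).mp hpq)
    (fun μ => (r μ : 𝓞 E))
  have hq0 : (0 : ℝ) < q := by exact_mod_cast hq1
  obtain ⟨rr, hrr⟩ : ∃ rr : Mono n d × Fin s → ℤ, rr = fun z => b.repr (r z.1 : 𝓞 E) z.2 :=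
    ⟨_, rfl⟩
  have hcoef : ∀ (u : Mono n d × Fin s → ℤ) (μ : Mono n d),
      coeffs b (fun z => rr z + q * u z) μ = (r μ : 𝓞 E) + q * coeffs b u μ := by
    intro u μ
    rw [coeffs, coeffs, Finset.mul_sum]
    have h1 : (r μ : 𝓞 E) = ∑ j, rr (μ, j) • b j := by
      rw [hrr]
      exact (b.sum_repr _).symm
    rw [h1, ← Finset.sum_add_distrib]
    refine Finset.sum_congr rfl fun j _ => ?_
    rw [add_smul, mul_smul]
    congr 1
    rw [zsmul_eq_mul, zsmul_eq_mul, Int.cast_natCast]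
  obtain ⟨R, hR⟩ : ∃ R : ℕ, ∀ μ, |rr μ| ≤ R := by
    refine ⟨∑ μ, (rr μ).natAbs, fun μ => ?_⟩
    rw [Int.abs_eq_natAbs]
    exact_mod_cast Finset.single_le_sum (f := fun μ => (rr μ).natAbs) (fun _ _ => Nat.zero_le _)
      (Finset.mem_univ μ)
  obtain ⟨B, hB⟩ := exists_nat_ge (4 * ∑ i, |Cs' i|)
  refine ⟨1 / (2 * (2 * q) ^ Fintype.card (Mono n d × Fin s)), by positivity, ?_⟩
  rw [Filter.eventually_atTop]
  refine ⟨2 * R + q + q * B + R + 1, fun H hH => ?_⟩
  obtain ⟨H', hH'⟩ : ∃ H', H' = (H - R) / q := ⟨_, rfl⟩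
  have hqH1 : q * H' ≤ H - R := hH' ▸ Nat.mul_div_le _ _
  have hqH2 : H - R < q * (H' + 1) := by
    rw [hH']
    exact Nat.lt_mul_div_succ _ hq1
  have hBH : B ≤ H' := by
    rw [hH', Nat.le_div_iff_mul_le hq1]
    have : B * q = q * B := mul_comm _ _
    omega
  have hbig : (2 * (H : ℝ) + 1) / (2 * q) ≤ 2 * H' + 1 := by
    rw [div_le_iff₀ (by positivity)]
    have h1 : ((H - R : ℕ) : ℝ) < q * (H' + 1) := by exact_mod_cast hqH2
    rw [Nat.cast_sub (by omega)] at h1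
    have h2 : ((2 * R + q + q * B + R + 1 : ℕ) : ℝ) ≤ H := by exact_mod_cast hH
    push_cast at h2
    have h3 : (0 : ℝ) ≤ q * B := by positivity
    have h4 : (1 : ℝ) ≤ q := by exact_mod_cast hq1
    have h5 : (0 : ℝ) ≤ R := by positivity
    nlinarith
  -- the good vectors in the small box
  let bad : Fin (n + 1) → Finset (Mono n d × Fin s → ℤ) := fun i =>
    (box (Mono n d × Fin s) H').filter fun u => ∃ 𝔭 : Ideal (𝓞 E), 𝔭.IsPrime ∧
      (∃ p : ℕ, p.Prime ∧ M < p ∧ (p : 𝓞 E) ∈ 𝔭) ∧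
      aeval (fun μ => (r μ : 𝓞 E) + q * ∑ j, u (μ, j) • b j) (g i) ∈ 𝔭 ∧
      aeval (fun μ => (r μ : 𝓞 E) + q * ∑ j, u (μ, j) • b j) (G i) ∈ 𝔭
  let gd : Finset (Mono n d × Fin s → ℤ) :=
    box (Mono n d × Fin s) H' \ Finset.univ.biUnion bad
  have hgd1 : ∀ u ∈ gd, GoodNF g G (coeffs b fun z => rr z + q * u z) := by
    intro u hu
    obtain ⟨m, K, hmq, hmK⟩ := hsm (𝓞 E) (coeffs b u)
    have hcf : coeffs b (fun z => rr z + q * u z) = fun μ => (r μ : 𝓞 E) + q * coeffs b u μ :=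
      funext fun μ => hcoef u μ
    have h2q : (2 : 𝓞 E) ∣ (q : 𝓞 E) := by
      have h1 : 2 ∣ q := (hq2 2 Nat.prime_two).mpr (by omega)
      exact_mod_cast (Nat.cast_dvd_cast h1 : ((2 : ℕ) : 𝓞 E) ∣ ((q : ℕ) : 𝓞 E))
    have hmP : ∀ P : Ideal (𝓞 E), P.IsPrime → m ∈ P → (q : 𝓞 E) ∉ P := by
      intro P hP hm hq
      apply hP.ne_top
      rw [Ideal.eq_top_iff_one]
      obtain ⟨c, hc⟩ := hmq
      have h1 : (1 : 𝓞 E) = m - q * c := by rw [← hc]; ring
      rw [h1]
      exact P.sub_mem hm (P.mul_mem_right _ hq)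
    have hm0 : m ≠ 0 := by
      rintro rfl
      apply not_isUnit_two E
      apply isUnit_of_dvd_unit (h2q.trans hmq)
      rw [zero_sub]
      exact isUnit_one.neg
    rw [hcf]
    refine ⟨m, K, hm0, hmK, fun P hP hm => ⟨?_, ?_⟩⟩
    · intro h2
      obtain ⟨c, hc⟩ := h2q
      exact hmP P hP hm (by rw [hc]; exact P.mul_mem_right _ h2)
    · intro i hi
      obtain ⟨p, hp, hpP⟩ := exists_prime_mem E hP hm0 hm
      have hMp : M < p := by
        by_contra hcon
        have h1 : p ∣ q := (hq2 p hp).mpr (by omega)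
        obtain ⟨c, hc⟩ := h1
        apply hmP P hP hm
        rw [hc]
        push_cast
        exact P.mul_mem_right _ hpP
      rw [Finset.mem_sdiff] at hu
      apply hu.2
      rw [Finset.mem_biUnion]
      exact ⟨i, Finset.mem_univ _, Finset.mem_filter.mpr ⟨hu.1, P, hP, ⟨p, hp, hMp, hpP⟩, hi⟩⟩
  let sh : (Mono n d × Fin s → ℤ) → (Mono n d × Fin s → ℤ) := fun u z => rr z + q * u z
  have hsh : Function.Injective sh := by
    intro a b hab
    funext μ
    have h1 := congrFun hab μ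
    have h2 : (q : ℤ) * a μ = q * b μ := by
      change rr μ + q * a μ = rr μ + q * b μ at h1
      linarith
    exact mul_left_cancel₀ (by exact_mod_cast (by omega : q ≠ 0)) h2
  have hsub : gd.image sh ⊆
      (box (Mono n d × Fin s) H).filter fun u => GoodNF g G (coeffs b u) := by
    intro v hv
    obtain ⟨a, ha, rfl⟩ := Finset.mem_image.mp hv
    refine Finset.mem_filter.mpr ⟨?_, hgd1 a ha⟩
    have ha1 := mem_box.mp (Finset.mem_sdiff.mp ha).1
    rw [mem_box]
    intro μ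
    change |rr μ + q * a μ| ≤ H
    have h1 : |(q : ℤ) * a μ| ≤ q * H' := by
      rw [abs_mul, Nat.abs_cast]
      exact mul_le_mul_of_nonneg_left (ha1 μ) (by positivity)
    have h2 : ((q * H' : ℕ) : ℤ) ≤ ((H - R : ℕ) : ℤ) := by exact_mod_cast hqH1
    rw [Nat.cast_sub (by omega)] at h2
    push_cast at h2
    calc |rr μ + q * a μ| ≤ |rr μ| + |(q : ℤ) * a μ| := abs_add_le _ _
      _ ≤ R + q * H' := add_le_add (hR μ) h1
      _ ≤ H := by linarith
  have hcard1 : (gd.card : ℝ) ≤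
      ((box (Mono n d × Fin s) H).filter fun u => GoodNF g G (coeffs b u)).card := by
    rw [← Finset.card_image_of_injective gd hsh]
    exact_mod_cast Finset.card_le_card hsub
  have hN0 : (0 : ℝ) < 2 * H' + 1 := by positivity
  have hbad : ((Finset.univ.biUnion bad).card : ℝ) ≤
      1 / 2 * (2 * H' + 1) ^ Fintype.card (Mono n d × Fin s) := by
    calc ((Finset.univ.biUnion bad).card : ℝ) ≤ ∑ i, ((bad i).card : ℝ) := by
          exact_mod_cast Finset.card_biUnion_le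
      _ ≤ ∑ i, (Cs i / M + Cs' i / (2 * H' + 1)) *
          (2 * H' + 1) ^ Fintype.card (Mono n d × Fin s) :=
          Finset.sum_le_sum fun i _ => hCs' i H'
      _ ≤ ∑ i, (|Cs i| / M + |Cs' i| / (2 * H' + 1)) *
          (2 * H' + 1) ^ Fintype.card (Mono n d × Fin s) := by
          refine Finset.sum_le_sum fun i _ => mul_le_mul_of_nonneg_right (add_le_add ?_ ?_)
            (by positivity)
          · exact div_le_div_of_nonneg_right (le_abs_self _) hM0.le
          · exact div_le_div_of_nonneg_right (le_abs_self _) hN0.le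
      _ = ((∑ i, |Cs i|) / M + (∑ i, |Cs' i|) / (2 * H' + 1)) *
          (2 * H' + 1) ^ Fintype.card (Mono n d × Fin s) := by
          rw [← Finset.sum_mul, Finset.sum_add_distrib, Finset.sum_div, Finset.sum_div]
      _ ≤ _ := by
          refine mul_le_mul_of_nonneg_right ?_ (by positivity)
          have h1 : (∑ i, |Cs i|) / M ≤ 1 / 4 := by
            rw [div_le_iff₀ hM0]
            linarith
          have h2 : (∑ i, |Cs' i|) / (2 * (H' : ℝ) + 1) ≤ 1 / 4 := by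
            rw [div_le_iff₀ hN0]
            have : (B : ℝ) ≤ H' := by exact_mod_cast hBH
            linarith
          linarith
  have hgd2 : 1 / 2 * (2 * (H' : ℝ) + 1) ^ Fintype.card (Mono n d × Fin s) ≤ gd.card := by
    have h1 : (box (Mono n d × Fin s) H').card ≤
        gd.card + (Finset.univ.biUnion bad).card :=
      Finset.card_le_card_sdiff_add_card
    have h2 : ((box (Mono n d × Fin s) H').card : ℝ) ≤
        gd.card + (Finset.univ.biUnion bad).card := by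
      exact_mod_cast h1
    rw [card_box] at h2
    linarith
  rw [card_box]
  calc 1 / (2 * (2 * (q : ℝ)) ^ Fintype.card (Mono n d × Fin s)) *
        (2 * H + 1) ^ Fintype.card (Mono n d × Fin s) =
        1 / 2 * ((2 * (H : ℝ) + 1) / (2 * q)) ^ Fintype.card (Mono n d × Fin s) := by
        rw [div_pow]
        field_simp
    _ ≤ 1 / 2 * (2 * (H' : ℝ) + 1) ^ Fintype.card (Mono n d × Fin s) := by
        refine mul_le_mul_of_nonneg_left ?_ (by norm_num)
        exact pow_le_pow_left₀ (by positivity) hbig _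
    _ ≤ gd.card := hgd2
    _ ≤ _ := hcard1

end

end Pool.Agent.Lib.MP_6a3dac_ag.DNF
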