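import Pool.Agent.Lib.MP_6a3dac_ag.DNF.Count
import Pool.Agent.Lib.MP_6a3dac_ag.Mg.G030

/-!
# A positive proportion of the hypersurfaces over a number field has a regular model
-/

set_option autoImplicit false

namespace Pool.Agent.Lib.MP_6a3dac_ag.DNF

open MvPolynomial CategoryTheory Limits AlgebraicGeometry NumberField IsDedekindDomain

variable {n d : ℕ} {g G : Fin (n + 1) → MvPolynomial (Mono n d) ℤ}

theorem smooth_of_good {E : Type} [Field E] [NumberField E] {a : Mono n d → 𝓞 E} (ha : GoodNF g G a) :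
    Smooth (hProjTo (formIdeal fun μ => algebraMap (𝓞 E) E (a μ))) := by
  obtain ⟨m, N, hm, hN, -⟩ := ha
  have h1 : map (algebraMap (𝓞 E) E) (form a) = form fun μ => algebraMap (𝓞 E) E (a μ) :=
    map_form _ a
  exact smooth_projTo_of_jac (formIdeal fun μ => algebraMap (𝓞 E) E (a μ)).toHom
    (isHomogeneous_form fun μ => algebraMap (𝓞 E) E (a μ)) rfl
    fun i => by
      have := jac_frac (K := E) hm (hN i)
      rwa [h1] at this

theorem hasRegularModel_of_good (hn : 2 ≤ n) (hd : 3 ≤ d)
    (hpair : ∀ (i : Fin (n + 1)) (k : Type) [Field k] (a : Mono n d → k) (x : Fin (n + 1) → k),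
      x i = 1 → eval x (form a) = 0 → (∀ l, l ≠ i → eval x (pderiv l (form a)) = 0) →
        (Matrix.of fun j l : {l : Fin (n + 1) // l ≠ i} =>
          eval x (pderiv j.1 (pderiv l.1 (form a)))).det = 0 →
        aeval a (g i) = 0 ∧ aeval a (G i) = 0)
    {E : Type} [Field E] {a : Mono n d → 𝓞 E} (ha : GoodNF g G a)
    (E' : Type) [Field E'] [NumberField E'] [Algebra E E'] :
    HasRegularModel E' (hProjTo (formIdeal fun μ => algebraMap E E' (algebraMap (𝓞 E) E (a μ)))) := by
  obtain ⟨m, N, hm, hN, hP⟩ := ha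
  have hinj : Function.Injective (algebraMap (𝓞 E) (𝓞 E')) := FaithfulSMul.algebraMap_injective _ _
  have h0 : map (algebraMap (𝓞 E) (𝓞 E')) (form a) =
      form fun μ => algebraMap (𝓞 E) (𝓞 E') (a μ) := map_form _ a
  have hN' : ∀ i, C (algebraMap (𝓞 E) (𝓞 E') m) * X i ^ N ∈ Ideal.span
      (insert (form fun μ => algebraMap (𝓞 E) (𝓞 E') (a μ))
        (Set.range fun l => pderiv l (form fun μ => algebraMap (𝓞 E) (𝓞 E') (a μ)))) := by
    intro i
    have h1 := Ideal.mem_map_of_mem (map (algebraMap (𝓞 E) (𝓞 E'))) (hN i)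
    rw [Ideal.map_span, Set.image_insert_eq, ← Set.range_comp, map_mul, map_C, map_pow,
      map_X] at h1
    have h2 : ((map (algebraMap (𝓞 E) (𝓞 E'))) ∘ fun l => pderiv l (form a)) =
        fun l => pderiv l (map (algebraMap (𝓞 E) (𝓞 E')) (form a)) := by
      funext l
      exact (pderiv_map (φ := algebraMap (𝓞 E) (𝓞 E')) (f := form a) (i := l)).symm
    rw [h2, h0] at h1
    exact h1
  refine exists_model_form (R := 𝓞 E') (K := E')
    (isHomogeneous_form fun μ => algebraMap (𝓞 E) (𝓞 E') (a μ)) _ ?_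
    (RingOfIntegers.not_isField E') hn (by omega)
    (m := algebraMap (𝓞 E) (𝓞 E') m) (fun h => hm (hinj (by rw [h, map_zero]))) hN' ?_
  · change Ideal.span {form fun μ => algebraMap E E' (algebraMap (𝓞 E) E (a μ))} = _
    rw [map_form]
    rfl
  · intro P hmP
    have h1 := hP (P.asIdeal.comap (algebraMap (𝓞 E) (𝓞 E'))) (Ideal.IsPrime.comap _) hmP
    refine ⟨fun h2 => h1.1 ?_, fun ϖ hϖ i => ?_⟩
    · rw [Ideal.mem_comap, map_ofNat]
      exact h2
    · refine nondegAt_of_pair (hpair i) P.asIdeal _ (fun h2 => h1.2 i ?_) ϖ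
      have hae : ∀ q : MvPolynomial (Mono n d) ℤ,
          aeval (fun μ => algebraMap (𝓞 E) (𝓞 E') (a μ)) q =
            algebraMap (𝓞 E) (𝓞 E') (aeval a q) := by
        intro q
        rw [aeval_def, aeval_def, eval₂_comp_left]
        congr 1
        exact RingHom.ext_int _ _
      rw [hae, hae] at h2
      exact h2

open Classical in
theorem hypersurface_density (E : Type) [Field E] [NumberField E] {s : ℕ}
    (b : Module.Basis (Fin s) ℤ (𝓞 E)) (hn : 2 ≤ n) (hd : 3 ≤ d) :
    ∃ c : ℝ, 0 < c ∧ ∀ᶠ H : ℕ in Filter.atTop,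
      c * (box (Mono n d × Fin s) H).card ≤ ((box (Mono n d × Fin s) H).filter fun u =>
        Smooth (hProjTo (formIdeal fun μ => algebraMap (𝓞 E) E (coeffs b u μ))) ∧
        ∀ (E' : Type) [Field E'] [NumberField E'] [Algebra E E'],
          HasRegularModel E'
            (hProjTo (formIdeal fun μ => algebraMap E E' (algebraMap (𝓞 E) E (coeffs b u μ))))).card := by
  have hex := fun i : Fin (n + 1) => dens_exists_pair (n := n) (d := d) (by omega) i
  choose g G hg hgG hpair using hex
  obtain ⟨c, hc, h⟩ := exists_many_good_nf E b hd hg hgG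
  refine ⟨c, hc, h.mono fun H hH => hH.trans ?_⟩
  have := Finset.card_le_card
    (s := (box (Mono n d × Fin s) H).filter fun u => GoodNF g G (coeffs b u))
    (t := (box (Mono n d × Fin s) H).filter fun u =>
        Smooth (hProjTo (formIdeal fun μ => algebraMap (𝓞 E) E (coeffs b u μ))) ∧
        ∀ (E' : Type) [Field E'] [NumberField E'] [Algebra E E'],
          HasRegularModel E'
            (hProjTo (formIdeal fun μ => algebraMap E E' (algebraMap (𝓞 E) E (coeffs b u μ)))))
    (fun u hu => by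
      rw [Finset.mem_filter] at hu ⊢
      exact ⟨hu.1, smooth_of_good hu.2, fun E' _ _ _ =>
        hasRegularModel_of_good hn hd hpair hu.2 E'⟩)
  exact_mod_cast this

end Pool.Agent.Lib.MP_6a3dac_ag.DNF
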